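import Pool.Agent.R617.LH.Main

set_option autoImplicit false

/-!
Every stable structure with an interpretation in the order of the rational numbers is
homomorphically equivalent to a structure interpretable over equality. (By the known
characterization, Lachlan's class consists of the stable structures that have an interpretation in
the order of the rational numbers.)
-/

namespace Pool.Agent.Results.MP_905f9a_lc.HomEquivalentOverEquality

open FirstOrder Pool.Agent.R617.LH

/-- Let `A` be a structure with relational signature which is stable and has a first-order
interpretation in `(ℚ; ≤)`. Then there are a structure `B` with the same signature which has a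
first-order interpretation in the pure set `ℕ`, and homomorphisms `A → B` and `B → A`. -/
theorem result (L : FirstOrder.Language.{0, 0}) [L.IsRelational] (A : Type) [L.Structure A]
    (stable : IsStable L A) (interpretable : Nonempty (Interpretation Language.order ℚ L A)) :
    ∃ (B : Type) (_ : L.Structure B), Nonempty (Interpretation Language.empty ℕ L B) ∧
      Nonempty (A →[L] B) ∧ Nonempty (B →[L] A) := by
  obtain ⟨I⟩ := interpretable
  exact ⟨Wd I, inferInstance, wd_interp I, ⟨toWd I⟩, exists_hom I stable⟩

end Pool.Agent.Results.MP_905f9a_lc.HomEquivalentOverEquality
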